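import Pool.Agent.Helper5.AN.Basic
import Pool.Agent.Helper83.AN.Luroth

/-!
# Project AN: no intermediate fields below a root of `f`
-/

set_option autoImplicit false

namespace Pool.Agent.Helper41.AN

open Polynomial

variable {p : ℕ} [Fact p.Prime] {n : ℕ} (A : AData p n)

namespace H63

/-- The equation of a root of `f` in an extension of `F_p(x)`. -/
theorem root_eq {L : Type} [Field L] [Algebra (RatFunc (ZMod p)) L] [Algebra (ZMod p) L]
    [IsScalarTower (ZMod p) (RatFunc (ZMod p)) L] (y : L) (hy : aeval y A.fK = 0) :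
    aeval y A.D * (y ^ p - algebraMap (RatFunc (ZMod p)) L RatFunc.X) + aeval y A.g = 0 := by
  have h1 : ∀ q : (ZMod p)[X],
      aeval y ((q.map (C : ZMod p →+* (ZMod p)[X])).map
        (algebraMap (ZMod p)[X] (RatFunc (ZMod p)))) = aeval y q := by
    intro q
    rw [Polynomial.map_map, aeval_def, eval₂_map, aeval_def]
    congr 1
    ext r
    change algebraMap (RatFunc (ZMod p)) L (algebraMap (ZMod p)[X] (RatFunc (ZMod p)) (C r)) = _
    rw [IsScalarTower.algebraMap_apply (ZMod p) (RatFunc (ZMod p)) L r,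
      IsScalarTower.algebraMap_apply (ZMod p) (ZMod p)[X] (RatFunc (ZMod p)) r]
    rfl
  have h2 : A.fK = (A.D.map C).map (algebraMap (ZMod p)[X] (RatFunc (ZMod p))) *
      (X ^ p - C RatFunc.X) + (A.g.map C).map (algebraMap (ZMod p)[X] (RatFunc (ZMod p))) := by
    simp [AData.fK, AData.f, RatFunc.algebraMap_X]
  rw [h2] at hy
  simpa [h1] using hy

end H63

theorem AData.inter {L : Type} [Field L] [Algebra (RatFunc (ZMod p)) L] (y : L)
    (hy : aeval y A.fK = 0) (M : IntermediateField (RatFunc (ZMod p)) L)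
    (hM : M ≤ IntermediateField.adjoin (RatFunc (ZMod p)) {y}) :
    M = ⊥ ∨ M = IntermediateField.adjoin (RatFunc (ZMod p)) {y} := by
  let _ : Algebra (ZMod p) L := ((algebraMap (RatFunc (ZMod p)) L).comp
    (algebraMap (ZMod p) (RatFunc (ZMod p)))).toAlgebra
  have _ : IsScalarTower (ZMod p) (RatFunc (ZMod p)) L := IsScalarTower.of_algebraMap_eq fun _ => rfl
  set K := RatFunc (ZMod p) with hK
  set x : L := algebraMap K L RatFunc.X with hx
  have h0 : aeval y A.D * (y ^ p - x) + aeval y A.g = 0 := H63.root_eq A y hy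
  -- the denominator does not vanish
  have hD : aeval y A.D ≠ 0 := by
    intro hD
    have hg : aeval y A.g = 0 := by
      rw [hD, zero_mul, zero_add] at h0
      exact h0
    obtain ⟨a, b, hab⟩ := A.isCoprime
    have h1 := congrArg (aeval y) hab
    simp [hD, hg] at h1
  have hxy : x = y ^ p + aeval y A.g / aeval y A.D := by
    apply mul_left_cancel₀ hD
    rw [mul_add, mul_div_cancel₀ _ hD]
    linear_combination -h0
  -- x is transcendental
  have hxt : Transcendental (ZMod p) x := by
    have h1 : Transcendental (ZMod p) (RatFunc.X : K) := RatFunc.transcendental_X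
    exact (transcendental_algebraMap_iff (algebraMap K L).injective).mpr h1
  -- y is transcendental
  have hyt : Transcendental (ZMod p) y := by
    intro hya
    apply hxt
    rw [hxy]
    have h1 : ∀ q : (ZMod p)[X], IsAlgebraic (ZMod p) (aeval y q) := fun q => by
      induction q using Polynomial.induction_on' with
      | add a b ha hb => rw [map_add]; exact ha.add hb
      | monomial k r =>
        rw [aeval_monomial]
        exact (isAlgebraic_algebraMap r).mul (hya.pow k)
    rw [div_eq_mul_inv]
    exact (hya.pow p).add ((h1 _).mul (h1 _).inv)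
  have hinj : Function.Injective (aeval y : (ZMod p)[X] →ₐ[ZMod p] L) :=
    transcendental_iff_injective.mp hyt
  have hle : nonZeroDivisors (ZMod p)[X] ≤
      (nonZeroDivisors L).comap (aeval y : (ZMod p)[X] →ₐ[ZMod p] L) := by
    intro q hq
    rw [Submonoid.mem_comap, mem_nonZeroDivisors_iff_ne_zero]
    intro h
    exact nonZeroDivisors.ne_zero hq (hinj (by simpa using h))
  let φ : K →ₐ[ZMod p] L := RatFunc.liftAlgHom (aeval y) hle
  have hφp : ∀ q : (ZMod p)[X], φ (algebraMap (ZMod p)[X] K q) = aeval y q := by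
    intro q
    have h1 := RatFunc.liftAlgHom_apply_div (aeval y : (ZMod p)[X] →ₐ[ZMod p] L) hle q 1
    simpa using h1
  have hφX : φ RatFunc.X = y := by
    rw [← RatFunc.algebraMap_X, hφp, aeval_X]
  have hφx : φ A.xfun = x := by
    rw [AData.xfun, map_add, map_pow, map_div₀, hφp, hφp, hφX, hxy]
  -- the image of `φ`
  have hev : ∀ q : (ZMod p)[X], algebraMap K L (algebraMap (ZMod p)[X] K q) = aeval x q := by
    intro q
    rw [← RatFunc.algebraMap_X] at hx
    induction q using Polynomial.induction_on' with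
    | add a b ha hb => simp only [map_add, ha, hb]
    | monomial k r =>
      rw [← C_mul_X_pow_eq_monomial, map_mul, map_mul, map_pow, map_pow, ← hx, map_mul, map_pow,
        aeval_X, aeval_C, IsScalarTower.algebraMap_apply (ZMod p) K L r,
        IsScalarTower.algebraMap_apply (ZMod p) (ZMod p)[X] K r]
      rfl
  have hpoly : ∀ q : (ZMod p)[X], ∃ r : K, φ r = aeval x q := by
    intro q
    exact ⟨aeval A.xfun q, by rw [← aeval_algHom_apply, hφx]⟩
  have hK' : ∀ r : K, ∃ s : K, φ s = algebraMap K L r := by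
    intro r
    obtain ⟨a, ha⟩ := hpoly r.num
    obtain ⟨b, hb⟩ := hpoly r.denom
    refine ⟨a / b, ?_⟩
    rw [map_div₀, ha, hb, ← hev, ← hev, ← map_div₀, RatFunc.num_div_denom]
  have hran : ∀ z ∈ IntermediateField.adjoin K {y}, ∃ s : K, φ s = z := by
    intro z hz
    induction hz using IntermediateField.adjoin_induction with
    | mem z hz =>
      rw [Set.mem_singleton_iff.mp hz]
      exact ⟨_, hφX⟩
    | algebraMap r => exact hK' r
    | add a b _ _ ha hb =>
      obtain ⟨s, rfl⟩ := ha
      obtain ⟨t, rfl⟩ := hb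
      exact ⟨s + t, map_add _ _ _⟩
    | inv a _ ha =>
      obtain ⟨s, rfl⟩ := ha
      exact ⟨s⁻¹, map_inv₀ _ _⟩
    | mul a b _ _ ha hb =>
      obtain ⟨s, rfl⟩ := ha
      obtain ⟨t, rfl⟩ := hb
      exact ⟨s * t, map_mul _ _ _⟩
  -- the preimage of an intermediate field
  have hpre : ∀ N : IntermediateField K L, ∃ N' : IntermediateField (ZMod p) K,
      (∀ r, r ∈ N' ↔ φ r ∈ N) ∧ IntermediateField.adjoin (ZMod p) {A.xfun} ≤ N' := by
    intro N
    refine ⟨(N.restrictScalars (ZMod p)).comap φ, fun r => Iff.rfl, ?_⟩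
    rw [IntermediateField.adjoin_le_iff]
    intro z hz
    rw [Set.mem_singleton_iff.mp hz]
    change φ A.xfun ∈ N
    rw [hφx]
    exact N.algebraMap_mem _
  obtain ⟨M', hM', hle'⟩ := hpre M
  rcases A.no_intermediate M' hle' with h | h
  · left
    rw [eq_bot_iff]
    intro m hm
    obtain ⟨r, rfl⟩ := hran m (hM hm)
    have hr : r ∈ M' := (hM' r).mpr hm
    rw [h] at hr
    obtain ⟨N', hN', hle''⟩ := hpre ⊥
    exact (hN' r).mp (hle'' hr)
  · right
    refine le_antisymm hM ?_
    rw [IntermediateField.adjoin_le_iff]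
    intro z hz
    rw [Set.mem_singleton_iff.mp hz, ← hφX]
    have hX : (RatFunc.X : K) ∈ M' := by rw [h]; trivial
    exact (hM' _).mp hX

end Pool.Agent.Helper41.AN
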